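import Mathlib
import Pool.Agent.VRing.Primitive

/-!
# Prime right V-rings that are countably generated over the centre are right primitive

More generally: a prime right V-ring is right primitive as soon as it has a countable subset
whose span over the centre meets every nonzero two-sided ideal nontrivially.

Sketch of the proof.  A right V-ring is right weakly regular: `a ∈ aRaR` for all `a`; hence all
two-sided ideals are idempotent, and the centre `F` of a prime right V-ring is a field.
* If `V` is a finite-dimensional `F`-subspace of `R`, there is a nonzero ideal contained in every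
  ideal `RvR`, `0 ≠ v ∈ V` (induction on `dim V`, using the multiplication algebra of `R` and the
  fact that a bimodule homomorphism from an ideal `I` to `R` is either zero or has image `I`).
* Hence there is a countable family of nonzero ideals `J n` such that every nonzero ideal contains
  one of them.  Choose nonzero `b₀ = 1`, `b (n+1) ∈ R b n ∩ J n` and `x n ∈ J n` with
  `b (n+1) = b (n+1) * x n`.  The right ideal `{s | ∃ n, b n * s = 0}` is proper and contains all
  `1 - x n`, so for a maximal right ideal `M` above it, `R / M` is simple and faithful.
-/

namespace Pool.Agent.Results.MP_2175e6_al.CountableCase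

universe u

/-- A prime right V-ring with a countable subset `S` whose span over the centre meets every
nonzero two-sided ideal in a nonzero element is right primitive. -/
theorem result (R : Type u) [Ring R] [Nontrivial R]
    (hprime : ∀ a b : R, (∀ r : R, a * r * b = 0) → a = 0 ∨ b = 0)
    (hV : ∀ (M : Type u) [AddCommGroup M] [Module Rᵐᵒᵖ M],
      IsSimpleModule Rᵐᵒᵖ M → Module.Injective Rᵐᵒᵖ M)
    (S : Set R) (hS : S.Countable)
    (hmeet : ∀ I : TwoSidedIdeal R, I ≠ ⊥ →
      ∃ x ∈ Submodule.span (Subring.center R) S, x ∈ I ∧ x ≠ 0) :
    ∃ (M : Type u) (_ : AddCommGroup M) (_ : Module Rᵐᵒᵖ M),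
      IsSimpleModule Rᵐᵒᵖ M ∧ ∀ r : Rᵐᵒᵖ, (∀ m : M, r • m = 0) → r = 0 :=
  Pool.Agent.VRing.primitive_of_countable R hprime hV S hS hmeet

end Pool.Agent.Results.MP_2175e6_al.CountableCase
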