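import Mathlib
import Pool.Agent.VRing6.Nu.Convert
import Pool.Agent.VRing6.Lev.Main

/-!
# Prime regular rings and right V-rings with rank functions on exceptional primitive ideals

Let `R` be a prime ring which is von Neumann regular, or a right V-ring with the following property
(W): in every prime factor ring `T` of `R` which is not right primitive, every proper finitely
generated right ideal `N` has a nonzero element `e` lying in all ideals `A` with `N + A = T`.
(Regular rings have (W): take `e` idempotent with `N = (1 - e) T`.)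

A subset of a ring is called coinitial if every nonzero ideal contains a nonzero element of it.
Let `X` be a coinitial subset of `R` (for instance `X = R`), and let `θ` be a cardinal.  A nonzero
ideal `P` is `θ`-exceptional if `R / P` is right primitive, has a coinitial subset of cardinality
`< θ`, and is not tame (see below).  Let `ν` be an infinite cardinal.  Say that a family of `ν`
ideals `Z i ⊋ P` converges to `P` if each `x ∉ P` lies in fewer than `ν` of the `Z i`.  Suppose
that for each regular uncountable cardinal `θ ≤ |X|` there are an infinite cardinal `ν < θ`, a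
well-ordered set `α` of at most `ν` elements and a function `d` from ideals to `α` such that, if a
family of `ν` many `θ`-exceptional ideals `Z i ⊋ P` converges to a `θ`-exceptional `P`, then
`d (Z i) < d P` for some `i`.  Then `R` is right primitive.

Examples.  `R` is right primitive if no exceptional `P` is the limit of a sequence of exceptional
ideals (`ν = ℵ₀`, `α` a point), or if `R` has countable classical Krull dimension (`ν = ℵ₀`, `d P`
the dimension of `R / P`), or if `R` has the ascending chain condition on prime ideals and for each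
regular uncountable `θ ≤ |X|` the classical Krull dimensions of `R / P` for the `θ`-exceptional `P`
are bounded by an ordinal `< θ` (`ν` the cardinality of this ordinal if it is infinite).  For
regular rings one cannot take `ν = ℵ₀`, `α = ω₁` for `θ = ℵ₁`: let `L` be the Leavitt path algebra
over a field `K` of the graph with vertices the countable ordinals and one edge from `β` to `γ` for
`β < γ`; then `K + L` is prime, regular and not primitive, and its exceptional ideals correspond to
the countable limit ordinals.

Sketch.  Say that `Y ⊆ R` is proper if `Y R ≠ R`, and that it treats `x` if some `f ∈ Y` lies in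
`1 + (x)`.  If `Y` is proper and treats the nonzero elements of `X`, a maximal right ideal
containing `Y` contains no nonzero ideal.  Let `R` be a counterexample.
* If `A` is an ideal maximal with `Y R + A ≠ R`, and `x ∉ A`, then some `f ∈ 1 + (x)` may be added
  to `Y`.  By (W), `A` keeps this property for a larger `Y'` as long as `A` avoids a set of
  `|Y'| + ℵ₀` nonzero elements.  Say that `Y` has `θ`-room if the set of these `A` is not covered
  by fewer than `θ` nonzero elements.  Then transfinite recursion treats `θ` many elements.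
* Let `E` be a set of nonzero elements.  If the set `M(E)` of ideals maximal with respect to
  avoiding `E` is not covered by fewer than `θ` nonzero elements, a set `Y` treating `E` has
  `θ`-room.
* Let `θ` be regular, and suppose that sets of fewer than `θ` elements can be treated in all prime
  factor rings.  Then the ideals in `M(E)`, `|E| < θ`, `E` closed under suitable operations, are
  `θ`-exceptional or zero.  If no `Y` has `θ`-room then every `M(E)` is covered by some `Z(E)`.  If
  `E` is the union of a chain `E i`, `i < ν`, with `Z(E i) ⊆ E (i + 1)`, then every `w ∈ M(E)` is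
  the limit of ideals in `M(E i)`.  So one can increase `inf d` on `M(E)`, step by step through `α`,
  until `M(E)` is empty, a contradiction; `|α| ≤ ν` is used to take care of all previous values.
* Finally an induction on cardinals, with different arguments for regular and for singular
  cardinals (the latter use the previous step for successor cardinals only), gives a proper `Y`
  treating all nonzero elements of `X`.
-/

open Cardinal

namespace Pool.Agent.Results.MP_2175e6_al.LevelRank

universe u

/-- Some simple right module is faithful. -/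
def RightPrimitive (U : Type u) [Ring U] : Prop :=
  ∃ (M : Type u) (_ : AddCommGroup M) (_ : Module Uᵐᵒᵖ M),
    IsSimpleModule Uᵐᵒᵖ M ∧ ∀ r : Uᵐᵒᵖ, (∀ m : M, r • m = 0) → r = 0

/-- Every simple right module is injective. -/
def RightVRing (U : Type u) [Ring U] : Prop :=
  ∀ (M : Type u) [AddCommGroup M] [Module Uᵐᵒᵖ M],
    IsSimpleModule Uᵐᵒᵖ M → Module.Injective Uᵐᵒᵖ M

/-- Every nonzero ideal contains a nonzero element of `X`. -/
def Coinitial {U : Type u} [Ring U] (X : Set U) : Prop :=
  ∀ I : TwoSidedIdeal U, I ≠ ⊥ → ∃ x ∈ X, x ≠ 0 ∧ x ∈ I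

/-- The right annihilator of a subset. -/
def rightAnn {U : Type u} [Ring U] (S : Set U) : Set U := {z | ∀ x ∈ S, x * z = 0}

/-- There are a faithful simple injective right module `S`, `K = End S`, and `g ≠ 0` such that
`dim_K (S g) < |S d| ^ ℵ₀` for all nonzero `d`. -/
def SmallRank (U : Type u) [Ring U] : Prop :=
  ∃ (S : Type u) (_ : AddCommGroup S) (_ : Module Uᵐᵒᵖ S),
    IsSimpleModule Uᵐᵒᵖ S ∧ Module.Injective Uᵐᵒᵖ S ∧
    (∀ r : Uᵐᵒᵖ, (∀ m : S, r • m = 0) → r = 0) ∧
    ∃ g : U, g ≠ 0 ∧ ∀ d : U, d ≠ 0 →
      Module.rank (Module.End Uᵐᵒᵖ S) (Submodule.span (Module.End Uᵐᵒᵖ S)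
        (Set.range fun s : S => MulOpposite.op g • s)) <
      #(ℕ → Set.range fun s : S => MulOpposite.op d • s)

/-- Tame rings. -/
def Tame (U : Type u) [Ring U] : Prop :=
  SmallRank U ∨
  (RightVRing U ∧ ∃ T : Set U, #T < continuum ∧ Submodule.span (Subring.center U) T = ⊤) ∨
  (∃ N : Submodule Uᵐᵒᵖ U, N ≠ ⊥ ∧ IsNoetherian Uᵐᵒᵖ N) ∨
  (∃ H : TwoSidedIdeal U, H ≠ ⊥ ∧ ∀ g ∈ H,
    ¬ ∃ S : ℕ → Set U, (∀ n, ∀ x ∈ S n, ∃ r, x = r * g) ∧
      ∀ n, rightAnn (S n) ⊂ rightAnn (S (n + 1)))

/-- A nonzero ideal `P` is `θ`-exceptional if `R / P` is right primitive, has a coinitial subset of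
fewer than `θ` elements, and is not tame. -/
def Exceptional {R : Type u} [Ring R] (θ : Cardinal.{u}) (P : TwoSidedIdeal R) : Prop :=
  P ≠ ⊥ ∧ RightPrimitive P.ringCon.Quotient ∧
    (∃ X : Set P.ringCon.Quotient, #X < θ ∧ Coinitial X) ∧ ¬ Tame P.ringCon.Quotient

/-- There are an infinite cardinal `ν < θ`, a well-ordered set `α` of at most `ν` elements and a
function `d` from ideals to `α` such that, whenever `P` and `Z i`, `i ∈ ι`, are `θ`-exceptional,
`|ι| = ν`, `P < Z i` for all `i`, and every `x ∉ P` lies in fewer than `ν` of the `Z i`, then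
`d (Z i) < d P` for some `i`. -/
def HasRank (R : Type u) [Ring R] (θ : Cardinal.{u}) : Prop :=
  ∃ (ν : Cardinal.{u}) (α : Type u) (_ : LinearOrder α) (_ : WellFoundedLT α)
    (d : TwoSidedIdeal R → α), ℵ₀ ≤ ν ∧ ν < θ ∧ #α ≤ ν ∧
    ∀ P : TwoSidedIdeal R, Exceptional θ P →
      ∀ (ι : Type u) (Z : ι → TwoSidedIdeal R), #ι = ν →
        (∀ i, Exceptional θ (Z i) ∧ P < Z i) → (∀ x, x ∉ P → #{i | x ∈ Z i} < ν) →
          ∃ i, d (Z i) < d P

/-- Every proper right ideal `N` generated by a finite set `s` has a witness `e ≠ 0`, that is, `e`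
lies in all ideals `A` with `N + A = T`. -/
def Witnesses (T : Type u) [Ring T] : Prop :=
  ∀ s : Finset T, (1 : T) ∉ Submodule.span Tᵐᵒᵖ (s : Set T) →
    ∃ e : T, e ≠ 0 ∧ ∀ A : TwoSidedIdeal T,
      (1 : T) ∈ Submodule.span Tᵐᵒᵖ ((s : Set T) ∪ {x | x ∈ A}) → e ∈ A

theorem result (R : Type u) [Ring R] [Nontrivial R]
    (hprime : ∀ a b : R, (∀ r : R, a * r * b = 0) → a = 0 ∨ b = 0)
    (hR : (∀ a : R, ∃ z, a * z * a = a) ∨
      (RightVRing R ∧ ∀ (T : Type u) [Ring T] (f : R →+* T), Function.Surjective f →
        Nontrivial T → (∀ a b : T, (∀ r : T, a * r * b = 0) → a = 0 ∨ b = 0) →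
        ¬ RightPrimitive T → Witnesses T))
    (X : Set R) (hX : Coinitial X)
    (hrank : ∀ θ : Cardinal.{u}, θ.IsRegular → ℵ₀ < θ → θ ≤ #X → HasRank R θ) :
    RightPrimitive R := by
  have hok : VRing6.Nu.Ok R := by
    rcases hR with hreg | ⟨hV, hW⟩
    · have hreg' : VRing23.VNR R := hreg
      refine ⟨hreg'.weaklyRegular, fun U _ f hf _ _ _ => ?_⟩
      have hU := hreg'.of_surjective f hf
      exact ⟨hU.jZero, VRing6.Room.VNR.hasWit hU⟩
    · have hV' : VRing.RightV R := hV
      refine ⟨hV'.weaklyRegular, fun U _ f hf hnt hp hn => ?_⟩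
      exact ⟨VRing23.RightV.jZero (VRing6.rightV_of_surjective f hf hV'), hW U f hf hnt hp hn⟩
  have hbad : ∀ (θ : Cardinal.{u}) (P : TwoSidedIdeal R), P ≠ ⊥ → VRing6.Nu.Bad θ P →
      Exceptional θ P := by
    rintro θ P hP ⟨U, _, f, hf, hU, hgood, hcoin, hker⟩
    obtain ⟨g, hgs, hgi⟩ := VRing6.Nu.exists_hom_of_ker f hf hker
    have hprim : VRing23.RightPrimitive P.ringCon.Quotient := hU.of_surj_inj g hgs hgi
    refine ⟨hP, hprim, VRing6.Nu.coin_of_bijective g hgs hgi hcoin,
      fun ht => hgood (VRing6.Nu.goodFactor_of_bijective g hgs hgi ?_)⟩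
    rcases ht with h | h | h | h
    · exact VRing6.goodFactor_of_smallRank h
    · obtain ⟨hV, T, hT, hspan⟩ := h
      exact VRing6.goodFactor_of_smallRank (VRing6.smallRank_of_span hV hprim T hT hspan)
    · exact VRing23.goodFactor_of_noetherian h
    · exact VRing23.goodFactor_of_local h
  have hC : VRing6.Nu.Good (fun T _ => VRing6.Nu.Ok T) :=
    ⟨fun _ _ _ _ f hf h => h.of_surjective f hf, fun _ _ h => h⟩
  refine VRing6.Lev.primitive_of_lv hC le_rfl
    (fun T _ _ hT hp hn => VRing6.Lev.treatAll_aleph0 hC T hT hp hn) R hok hprime X hX ?_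
  intro θ h1 h2 h3
  obtain ⟨ν, α, _, _, d, h4, h5, h6, h7⟩ := hrank θ h1 h2 h3
  refine ⟨ν, α, inferInstance, inferInstance, h4, h5, h6, d, fun P hP hPb ι Z hι hZ hconv => ?_⟩
  exact h7 P (hbad θ P hP hPb) ι Z hι
    (fun i => ⟨hbad θ _ (fun h0 => not_lt_bot (h0 ▸ (hZ i).2)) (hZ i).1, (hZ i).2⟩) hconv

end Pool.Agent.Results.MP_2175e6_al.LevelRank
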