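import Mathlib
import Pool.Agent.VRing6.Rank

/-!
# Prime right V-rings whose proper primitive factor rings have small rank or a chain condition

Let `R` be a prime right V-ring.  Suppose that every right primitive factor ring `U` of `R` by a
nonzero ideal satisfies one of the following conditions.
* `U` has a faithful simple right module `S`, with endomorphism ring `K`, and a nonzero element
  `g` such that `dim_K (S g) < |S d| ^ ℵ₀` for all nonzero `d` (for instance
  `dim_K (S g) < |K| ^ ℵ₀`, or `dim_K (S g)` countable).
* `U` is spanned by fewer than continuum many elements over its centre.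
* `U` has a nonzero Noetherian right ideal, or the ascending chain condition on right
  annihilators, or a nonzero ideal `H` such that for every `g ∈ H` the chain condition holds for
  right annihilators of subsets of `U g`.
Then `R` is right primitive.

Sketch.  Assume that `R` is not right primitive.  For every `g ≠ 0` there are `r, y` with
`r g ≠ 0`, `r g y = 0`, `g y ≠ 0`.  Iterating, every `g ≠ 0` carries a ladder: `x n ∈ R g`,
`x n * w n ≠ 0`, `x m * w n = 0` for `n < m`.  Close `{1}` under products `g r g' ≠ 0` and under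
`g ↦ x n * w n`; this gives a countable set of nonzero elements.  An ideal `A` maximal among the
ideals avoiding it is prime, `U = R / A` has a countable coinitial family of ideals, so it is
right primitive, and every nonzero ideal of `U` contains an element with a ladder in `U`.
Let `g` be an element with a ladder and `S` a faithful simple right `U`-module.  For all
`a n ∈ S x n`, `n ∈ ℕ`, there is `t ∈ S` with `t g w n = ∑ (m ≤ n) a m w n`, as `S` is injective;
so a quotient of `S g` contains a copy of the product of the spaces `S x n w n`, whose dimension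
over `K` is its cardinality by the Erdős-Kaplansky theorem.
-/

open Cardinal

namespace Pool.Agent.Results.MP_2175e6_al.SmallRankFactors

universe u

/-- Some simple right module is faithful. -/
def RightPrimitive (U : Type u) [Ring U] : Prop :=
  ∃ (M : Type u) (_ : AddCommGroup M) (_ : Module Uᵐᵒᵖ M),
    IsSimpleModule Uᵐᵒᵖ M ∧ ∀ r : Uᵐᵒᵖ, (∀ m : M, r • m = 0) → r = 0

/-- The right annihilator of a subset. -/
def rightAnn {U : Type u} [Ring U] (S : Set U) : Set U := {z | ∀ x ∈ S, x * z = 0}

/-- There are a faithful simple right module `S`, `K = End S`, and `g ≠ 0` such that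
`dim_K (S g) < |S d| ^ ℵ₀` for all nonzero `d`. -/
def SmallRank (U : Type u) [Ring U] : Prop :=
  ∃ (S : Type u) (_ : AddCommGroup S) (_ : Module Uᵐᵒᵖ S),
    IsSimpleModule Uᵐᵒᵖ S ∧ (∀ r : Uᵐᵒᵖ, (∀ m : S, r • m = 0) → r = 0) ∧
    ∃ g : U, g ≠ 0 ∧ ∀ d : U, d ≠ 0 →
      Module.rank (Module.End Uᵐᵒᵖ S) (Submodule.span (Module.End Uᵐᵒᵖ S)
        (Set.range fun s : S => MulOpposite.op g • s)) <
      #(ℕ → Set.range fun s : S => MulOpposite.op d • s)

theorem result (R : Type u) [Ring R] [Nontrivial R]
    (hprime : ∀ a b : R, (∀ r : R, a * r * b = 0) → a = 0 ∨ b = 0)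
    (hV : ∀ (M : Type u) [AddCommGroup M] [Module Rᵐᵒᵖ M],
      IsSimpleModule Rᵐᵒᵖ M → Module.Injective Rᵐᵒᵖ M)
    (hfac : ∀ (U : Type u) [Ring U] (f : R →+* U), Function.Surjective f →
      ¬ Function.Injective f → RightPrimitive U →
        SmallRank U ∨
        (∃ T : Set U, #T < continuum ∧ Submodule.span (Subring.center U) T = ⊤) ∨
        (∃ N : Submodule Uᵐᵒᵖ U, N ≠ ⊥ ∧ IsNoetherian Uᵐᵒᵖ N) ∨
        (¬ ∃ S : ℕ → Set U, ∀ n, rightAnn (S n) ⊂ rightAnn (S (n + 1))) ∨
        (∃ H : TwoSidedIdeal U, H ≠ ⊥ ∧ ∀ g ∈ H,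
          ¬ ∃ S : ℕ → Set U, (∀ n, ∀ x ∈ S n, ∃ r, x = r * g) ∧
            ∀ n, rightAnn (S n) ⊂ rightAnn (S (n + 1)))) :
    RightPrimitive R := by
  refine VRing23.primitive_of_goodFactors R hprime
    (VRing.RightV.weaklyRegular hV) (VRing23.RightV.jZero hV) ?_
  intro U _ f hf hfi hU
  rcases hfac U f hf hfi hU with h | h | h | h | h
  · obtain ⟨S, i1, i2, hS, hfa, h⟩ := h
    exact VRing6.goodFactor_of_smallRank
      ⟨S, i1, i2, hS, VRing6.rightV_of_surjective f hf hV S hS, hfa, h⟩
  · obtain ⟨T, hT, hspan⟩ := h
    exact VRing6.goodFactor_of_smallRank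
      (VRing6.smallRank_of_span (VRing6.rightV_of_surjective f hf hV) hU T hT hspan)
  · exact VRing23.goodFactor_of_noetherian h
  · have : Nontrivial U := VRing23.RightPrimitive.nontrivial hU
    exact VRing23.goodFactor_of_acc h
  · exact VRing23.goodFactor_of_local h

end Pool.Agent.Results.MP_2175e6_al.SmallRankFactors
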