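import Mathlib
import Pool.Agent.VRing91.Base

/-!
# Prime two-sided V-rings

Let `R` be a prime right and left V-ring (all simple right modules and all simple left modules are
injective) which is von Neumann regular, or in which, more generally, for every prime ideal `P`
every proper finitely generated right ideal of `R / P` has a nonzero left annihilator.  Let `X` be
a subset of `R` whose span over the centre meets every nonzero ideal nontrivially.  Then `R` is
right primitive if `|X| ≤ ℵ₁` (for instance if `R` has at most `ℵ₁` ideals or dimension at most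
`ℵ₁` over its centre), and also, for `X` of arbitrary cardinality, if there is a rank function with
at most `ℵ₁` values on the exceptional ideals of `R`: a function `d` from ideals to a well-ordered
set such that `d (Z i) < d P` for some `i` whenever uncountably many exceptional `Z i > P`,
`i ∈ ι`, `|ι| = ℵ₁`, converge to a nonzero exceptional `P` in the sense that each `x ∉ P` lies in
only countably many `Z i`.  Here `P` is exceptional if `R / P` is right primitive, has a coinitial
subset of cardinality `< |X|`, and is not tame (see below).  The case `|X| ≤ ℵ₁` is the special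
case where `R / P` has a countable coinitial subset for all exceptional `P`, so that there are no
families `Z i` as above; it is also the base of the induction which proves the general case.

Sketch.  Say that `Y ⊆ R` is proper if `Y R ≠ R`, and that it treats `x` if some `f ∈ Y` lies in
`1 + (x)`.  If `Y` is proper and treats a coinitial set, a maximal right ideal containing `Y`
contains no nonzero ideal.

(H) If `Y` is countable and proper then `Y R` contains no nonzero ideal.  Suppose `g ≠ 0` and
`(g) ⊆ Y R`.  Choose nonzero `z k ∈ (g)` annihilating from the left more and more elements of `Y`,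
and `a k ∈ (g) ⊆ Y R` with `z k = z k * a k`, such that `z j * a k = 0` for `j > k`.  Then the left
ideals `R z k` are independent.  As `R` is a left V-ring there are a simple left module `S` with
`g S ≠ 0` and `z k S ≠ 0` for all `k`, and, `S` being injective, some `s ∈ S` with `z k s ≠ 0` for
all `k`.  But `s = r g t` with `r g ∈ Y R`, so `z k s = 0` for large `k`.

Hence any set of at most `ℵ₁` nonzero elements can be treated: in a recursion of length `ω₁` the
set `Y` of the elements chosen so far is countable, `Y R` does not contain `(x)` by (H), and as `R`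
is a right V-ring some maximal right ideal contains `Y` but not `(x)`, hence some `f ∈ 1 + (x)`.
This is the base of the induction on cardinals explained in
`Pool.Agent.Results.MP_2175e6_al.CountableRank`, now with chains of length `ω₁` instead of `ω`.
-/

open Cardinal

namespace Pool.Agent.Results.MP_2175e6_al.TwoSidedRank

universe u

/-- Some simple right module is faithful. -/
def RightPrimitive (U : Type u) [Ring U] : Prop :=
  ∃ (M : Type u) (_ : AddCommGroup M) (_ : Module Uᵐᵒᵖ M),
    IsSimpleModule Uᵐᵒᵖ M ∧ ∀ r : Uᵐᵒᵖ, (∀ m : M, r • m = 0) → r = 0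

/-- The right annihilator of a subset. -/
def rightAnn {U : Type u} [Ring U] (S : Set U) : Set U := {z | ∀ x ∈ S, x * z = 0}

/-- There are a faithful simple injective right module `S`, `K = End S`, and `g ≠ 0` such that
`dim_K (S g) < |S d| ^ ℵ₀` for all nonzero `d`. -/
def SmallRank (U : Type u) [Ring U] : Prop :=
  ∃ (S : Type u) (_ : AddCommGroup S) (_ : Module Uᵐᵒᵖ S),
    IsSimpleModule Uᵐᵒᵖ S ∧ Module.Injective Uᵐᵒᵖ S ∧
    (∀ r : Uᵐᵒᵖ, (∀ m : S, r • m = 0) → r = 0) ∧
    ∃ g : U, g ≠ 0 ∧ ∀ d : U, d ≠ 0 →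
      Module.rank (Module.End Uᵐᵒᵖ S) (Submodule.span (Module.End Uᵐᵒᵖ S)
        (Set.range fun s : S => MulOpposite.op g • s)) <
      #(ℕ → Set.range fun s : S => MulOpposite.op d • s)

/-- Every nonzero ideal contains a nonzero element of `X`. -/
def Coinitial {U : Type u} [Ring U] (X : Set U) : Prop :=
  ∀ I : TwoSidedIdeal U, I ≠ ⊥ → ∃ x ∈ X, x ≠ 0 ∧ x ∈ I

/-- Tame rings: `SmallRank` holds, or `U` is spanned by fewer than continuum many elements over its
centre, or has a nonzero Noetherian right ideal, or has a nonzero ideal `H` such that for every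
`g ∈ H` there is no strictly increasing sequence of right annihilators of subsets of `U g`. -/
def Tame (U : Type u) [Ring U] : Prop :=
  SmallRank U ∨
  (∃ T : Set U, #T < continuum ∧ Submodule.span (Subring.center U) T = ⊤) ∨
  (∃ N : Submodule Uᵐᵒᵖ U, N ≠ ⊥ ∧ IsNoetherian Uᵐᵒᵖ N) ∨
  (∃ H : TwoSidedIdeal U, H ≠ ⊥ ∧ ∀ g ∈ H,
    ¬ ∃ S : ℕ → Set U, (∀ n, ∀ x ∈ S n, ∃ r, x = r * g) ∧
      ∀ n, rightAnn (S n) ⊂ rightAnn (S (n + 1)))

/-- A nonzero ideal `P` is exceptional if `R / P` is right primitive, has a coinitial subset of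
fewer than `κ` elements, and is not tame. -/
def Exceptional {R : Type u} [Ring R] (κ : Cardinal.{u}) (P : TwoSidedIdeal R) : Prop :=
  P ≠ ⊥ ∧ RightPrimitive P.ringCon.Quotient ∧
    (∃ X : Set P.ringCon.Quotient, #X < κ ∧ Coinitial X) ∧ ¬ Tame P.ringCon.Quotient

/-- There are a well-ordered set `α` of cardinality at most `ℵ₁` and a function `d` from ideals to
`α` such that, whenever `P` and `Z i`, `i ∈ ι`, are exceptional, `|ι| = ℵ₁`, `P < Z i` for all `i`,
and every `x ∉ P` lies in only countably many `Z i`, then `d (Z i) < d P` for some `i`. -/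
def HasRank (R : Type u) [Ring R] (κ : Cardinal.{u}) : Prop :=
  ∃ (α : Type u) (_ : LinearOrder α) (_ : WellFoundedLT α) (d : TwoSidedIdeal R → α), #α ≤ ℵ₁ ∧
    ∀ P : TwoSidedIdeal R, Exceptional κ P →
      ∀ (ι : Type u) (Z : ι → TwoSidedIdeal R), #ι = ℵ₁ →
        (∀ i, Exceptional κ (Z i) ∧ P < Z i) → (∀ x, x ∉ P → {i | x ∈ Z i}.Countable) →
          ∃ i, d (Z i) < d P

private lemma goodFactor_of_tame {U : Type u} [Ring U] (hV : VRing.RightV U)
    (hU : VRing23.RightPrimitive U) (h : Tame U) : VRing23.GoodFactor U := by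
  rcases h with h | ⟨T, hT, hspan⟩ | h | h
  · exact VRing6.goodFactor_of_smallRank h
  · exact VRing6.goodFactor_of_smallRank (VRing6.smallRank_of_span hV hU T hT hspan)
  · exact VRing23.goodFactor_of_noetherian h
  · exact VRing23.goodFactor_of_local h

private lemma exceptional_of_bad {R : Type u} [Ring R] (hV : VRing.RightV R)
    {κ κ' : Cardinal.{u}} (hκ : κ ≤ κ') {P : TwoSidedIdeal R} (hP0 : P ≠ ⊥)
    (h : VRing6.Nu.Bad κ P) : Exceptional κ' P := by
  obtain ⟨U, _, f, hf, hU, hg, ⟨X, hX, hco⟩, hP⟩ := h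
  obtain ⟨g, hgs, hgi⟩ := VRing6.Nu.exists_hom_of_ker f hf hP
  have hprim : VRing23.RightPrimitive P.ringCon.Quotient := hU.of_surj_inj g hgs hgi
  refine ⟨hP0, hprim, ?_, fun ht => hg ?_⟩
  swap
  · refine VRing6.Nu.goodFactor_of_bijective g hgs hgi (goodFactor_of_tame ?_ hprim ht)
    exact VRing6.rightV_of_surjective P.ringCon.mk' P.ringCon.mk'_surjective hV
  · let e : P.ringCon.Quotient ≃+* U := RingEquiv.ofBijective g ⟨hgi, hgs⟩
    refine ⟨e.symm '' X, mk_image_le.trans_lt (hX.trans_le hκ), fun I hI => ?_⟩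
    obtain ⟨x, hx, hx0, hxI⟩ := hco (I.comap (e.symm : U →+* P.ringCon.Quotient))
      (VRing6.Nu.comap_ne_bot _ e.symm.surjective hI)
    rw [TwoSidedIdeal.mem_comap] at hxI
    refine ⟨e.symm x, ⟨x, hx, rfl⟩, ?_, hxI⟩
    intro h0
    apply hx0
    rw [← map_zero e.symm] at h0
    exact e.symm.injective h0

private lemma ann_of_quotients {R : Type u} [Ring R]
    (hann : ∀ P : TwoSidedIdeal R, (∀ a b : R, (∀ r : R, a * r * b ∈ P) → a ∈ P ∨ b ∈ P) →
      ∀ s : Finset R, Submodule.span Rᵐᵒᵖ ((s : Set R) ∪ {x | x ∈ P}) ≠ ⊤ →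
        ∃ z, z ∉ P ∧ ∀ y ∈ s, z * y ∈ P)
    (U : Type u) [Ring U] (f : R →+* U) (hf : Function.Surjective f) (hp : VRing23.Pr U) :
    VRing91.Ann U := by
  classical
  intro s hs
  choose g hg using hf
  obtain ⟨z, hz, hzs⟩ := hann (TwoSidedIdeal.ker f) (by
    intro a b hab
    simp only [TwoSidedIdeal.mem_ker] at hab ⊢
    refine hp _ _ fun r => ?_
    have h1 := hab (g r)
    rwa [map_mul, map_mul, hg] at h1) (s.image g) (by
    rw [VRing91.span_ne_top_iff] at hs ⊢
    intro h1
    apply hs
    have key : ∀ x ∈ Submodule.span Rᵐᵒᵖ (((s.image g : Finset R) : Set R) ∪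
        {x | x ∈ TwoSidedIdeal.ker f}), f x ∈ Submodule.span Uᵐᵒᵖ (s : Set U) := by
      intro x hx
      induction hx using Submodule.span_induction with
      | mem x hx =>
        rcases hx with hx | hx
        · rw [Finset.coe_image] at hx
          obtain ⟨u, hu, rfl⟩ := hx
          rw [hg]
          exact Submodule.subset_span hu
        · have h2 : f x = 0 := by
            rw [← TwoSidedIdeal.mem_ker]
            exact hx
          rw [h2]
          exact Submodule.zero_mem _
      | zero => rw [map_zero]; exact Submodule.zero_mem _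
      | add a b _ _ ha hb => rw [map_add]; exact Submodule.add_mem _ ha hb
      | smul c a _ ha =>
        change f (a * c.unop) ∈ _
        rw [map_mul]
        exact Submodule.smul_mem _ (MulOpposite.op (f c.unop)) ha
    have h2 := key 1 h1
    rwa [map_one] at h2)
  refine ⟨f z, ?_, fun y hy => ?_⟩
  · rwa [TwoSidedIdeal.mem_ker] at hz
  · have h1 := hzs (g y) (Finset.mem_image_of_mem g hy)
    rwa [TwoSidedIdeal.mem_ker, map_mul, hg] at h1

theorem result (R : Type u) [Ring R] [Nontrivial R]
    (hprime : ∀ a b : R, (∀ r : R, a * r * b = 0) → a = 0 ∨ b = 0)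
    (hV : ∀ (M : Type u) [AddCommGroup M] [Module Rᵐᵒᵖ M],
      IsSimpleModule Rᵐᵒᵖ M → Module.Injective Rᵐᵒᵖ M)
    (hV' : ∀ (M : Type u) [AddCommGroup M] [Module R M],
      IsSimpleModule R M → Module.Injective R M)
    (hann : (∀ a : R, ∃ z, a * z * a = a) ∨
      ∀ P : TwoSidedIdeal R, (∀ a b : R, (∀ r : R, a * r * b ∈ P) → a ∈ P ∨ b ∈ P) →
        ∀ s : Finset R, Submodule.span Rᵐᵒᵖ ((s : Set R) ∪ {x | x ∈ P}) ≠ ⊤ →
          ∃ z, z ∉ P ∧ ∀ y ∈ s, z * y ∈ P)
    (X : Set R)
    (hX : ∀ I : TwoSidedIdeal R, I ≠ ⊥ →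
      ∃ x ∈ Submodule.span (Subring.center R) X, x ∈ I ∧ x ≠ 0)
    (h : #X ≤ ℵ₁ ∨ HasRank R #X) :
    RightPrimitive R := by
  have hC : VRing91.TwoV R := by
    refine ⟨hV, hV', fun U _ f hf hp _ => ?_⟩
    rcases hann with hreg | hann
    · exact VRing91.VNR.ann (VRing23.VNR.of_surjective f hf hreg)
    · exact ann_of_quotients hann U f hf hp
  by_contra hn
  have hAnn : VRing91.Ann R :=
    hC.2.2 R (RingHom.id R) Function.surjective_id hprime hn
  rcases le_or_gt #X ℵ₁ with hX1 | hX1
  · exact hn (VRing91.rightPrimitive_of_aleph_one R hprime hV hV' hAnn X hX1 hX)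
  obtain ⟨α, _, _, d, hα, hd⟩ := h.resolve_left (not_le_of_gt hX1)
  obtain ⟨X', hX'c, hX'⟩ := VRing91.exists_coin hprime hV X (aleph0_le_aleph 1 |>.trans hX1.le) hX
  refine hn (VRing91.rightPrimitive_of_rk α hα R hC hprime X' hX' ⟨d, ?_⟩)
  intro P hP0 hP ι Z hι hZ hconv
  refine hd P (exceptional_of_bad hV hX'c hP0 hP) ι Z hι
    (fun i => ⟨exceptional_of_bad hV hX'c (fun h0 => not_lt_bot (h0 ▸ (hZ i).2)) (hZ i).1,
      (hZ i).2⟩) fun x hx => ?_
  rw [← Cardinal.le_aleph0_iff_set_countable, ← Order.lt_succ_iff, Cardinal.succ_aleph0]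
  exact hconv x hx

end Pool.Agent.Results.MP_2175e6_al.TwoSidedRank
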